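import Mathlib
import Pool.Agent.Lib.MP_f7d510_lc.Char.Defs
import Pool.Agent.Lib.MP_f7d510_lc.Char.Guess
import Pool.Agent.Lib.MP_f7d510_lc.Char.Build

/-!
For every singular cardinal `l`, a strong `l⁺`-Kurepa tree exists if and only if diamond-plus
holds at `l⁺` and an `l⁺`-Aronszajn tree exists.
-/

namespace Pool.Agent.Results.MP_f7d510_lc.DiamondPlusIff

open Pool.Agent.Lib.MP_f7d510_lc.Char

theorem result (l : Cardinal.{0}) (hl : l.IsSingular) :
    (∃ (T : Type) (_ : PartialOrder T), StrongKurepa (Order.succ l).ord.ToType T) ↔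
      (DiamondPlus (Order.succ l).ord.ToType ∧
        ∃ (U : Type) (_ : PartialOrder U), Aronszajn (Order.succ l).ord.ToType U) := by
  have h : Succ (Order.succ l).ord.ToType l :=
    ⟨hl.aleph0_le, Cardinal.mk_ord_toType _, fun x =>
      Order.lt_succ_iff.1 (Cardinal.mk_Iio_toType_ord_lt x)⟩
  constructor
  · rintro ⟨T, _, hT⟩
    exact ⟨diamond_of h hT, aronszajn_of h hT⟩
  · rintro ⟨hD, U, _, hU⟩
    exact strong_of h hD hU

end Pool.Agent.Results.MP_f7d510_lc.DiamondPlusIff
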