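import Mathlib
import Pool.Agent.Lib.MP_053343_lc.Defs
import Pool.Agent.Lib.MP_f7d510_lc.Defs
import Pool.Agent.Lib.MP_f7d510_lc.Model

/-!
Positive answer to Q1 of MP_f7d510_lc: a transitive model of ZFC with a singular cardinal `l`
and a strong `l⁺`-Kurepa tree.
-/

namespace Pool.Agent.Results.MP_f7d510_lc.StrongKurepa

open Pool.Agent.Lib.MP_053343_lc Pool.Agent.Lib.MP_f7d510_lc

theorem result :
    ∃ M : ZFSet.{0}, ModelZF M ∧ AC M ∧ ∃ l ∈ M, ∃ k ∈ M, Singular M l ∧ SuccCard M l k ∧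
      ∃ T ∈ M, StrongKurepa M k T := by
  obtain ⟨C⟩ := Pool.Agent.Shared.Forcing.exists_ctx UR.ev UD.ev
  exact ⟨C.M, C.modelZF, C.choice, _, C.val_mem_M (l0_mem C), _, kap_mem C, singular C,
    succCard C, _, tree_mem C, strongKurepa C⟩

end Pool.Agent.Results.MP_f7d510_lc.StrongKurepa
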